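import Pool.Agent.P.MP_10147b_co.Glue

namespace Pool.Agent.P.MP_10147b_co.Sharp

open Polynomial List Filter

theorem seg_split {F : Set ℝ[X]} {b : ℝ} {l2 : List ℝ[X]} (l1 : List ℝ[X]) : ∀ {a : ℝ},
    Seg F a b (l1 ++ l2) → ∃ c, Seg F a c l1 ∧ Seg F c b l2 := by
  induction l1 with
  | nil => exact fun h => ⟨_, Seg.nil _, h⟩
  | cons g l1 ih =>
    intro a h
    cases h with
    | cons k1 k2 k3 k4 =>
      obtain ⟨c, h1, h2⟩ := ih k4
      exact ⟨c, Seg.cons k1 k2 k3 h1, h2⟩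

theorem seg_head {F : Set ℝ[X]} {a b : ℝ} {e : List ℝ[X]} (h : Seg F a b e) (he : e ≠ []) :
    a < b ∧ ∃ g ∈ F, MinAt F g a := by
  cases h with
  | nil => exact absurd rfl he
  | cons k1 k2 k3 k4 => exact ⟨k1.trans_le k4.le, _, k2, k3 a le_rfl k1.le⟩

theorem lip (p : ℝ[X]) (u v z : ℝ) : ∃ B, ∀ x, u ≤ x → x ≤ v →
    p.eval z - B * |x - z| ≤ p.eval x := by
  obtain ⟨q, hq⟩ := X_sub_C_dvd_sub_C_eval (a := z) (p := p)
  obtain ⟨B, hB⟩ := (isCompact_Icc (a := u) (b := v)).exists_bound_of_continuousOn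
    (f := fun x => q.eval x) q.continuous.continuousOn
  refine ⟨B, fun x h1 h2 => ?_⟩
  have k := congrArg (eval x) hq
  simp only [eval_sub, eval_C, eval_mul, eval_X] at k
  have k1 : |q.eval x| ≤ B := hB x ⟨h1, h2⟩
  have k2 := neg_abs_le ((x - z) * q.eval x)
  rw [abs_mul] at k2
  nlinarith [abs_nonneg (x - z)]

theorem big {p : ℝ[X]} {c d : ℝ} (hcd : c < d) (hc : 0 ≤ p.eval c) (hd : 0 ≤ p.eval d) :
    ∀ᶠ Λ : ℝ in atTop, ∀ x, c ≤ x → x ≤ d → 0 ≤ p.eval x + Λ * ((x - c) * (d - x)) := by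
  obtain ⟨B1, h1⟩ := lip p c d c
  obtain ⟨B2, h2⟩ := lip p c d d
  filter_upwards [eventually_ge_atTop (B1 / ((d - c) / 2)),
    eventually_ge_atTop (B2 / ((d - c) / 2)), eventually_ge_atTop 0] with Λ l1 l2 l3 x hx hx'
  rw [div_le_iff₀ (by linarith)] at l1 l2
  rcases le_total x ((c + d) / 2) with k | k
  · have := h1 x hx hx'
    rw [abs_of_nonneg (by linarith)] at this
    have k1 : B1 ≤ Λ * (d - x) := l1.trans (mul_le_mul_of_nonneg_left (by linarith) l3)
    nlinarith [mul_le_mul_of_nonneg_right k1 (sub_nonneg.2 hx)]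
  · have := h2 x hx hx'
    rw [abs_of_nonpos (by linarith)] at this
    have k1 : B2 ≤ Λ * (x - c) := l2.trans (mul_le_mul_of_nonneg_left (by linarith) l3)
    nlinarith [mul_le_mul_of_nonneg_right k1 (sub_nonneg.2 hx')]

/-- one new cubic covers the envelope exactly on `[c, d]` -/
theorem exists_cover {F : Set ℝ[X]} (hF : F.Finite) (hdeg : ∀ f ∈ F, f.natDegree ≤ 3) {c d : ℝ}
    (hcd : c < d) {f1 f2 : ℝ[X]} (h1 : f1 ∈ F) (h2 : f2 ∈ F) (m1 : MinAt F f1 c)
    (m2 : MinAt F f2 d) : ∃ Q : ℝ[X], Q ∉ F ∧ Q.natDegree ≤ 3 ∧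
      (∀ x, c ≤ x → x ≤ d → MinAt F Q x) ∧
      ∀ x, x ≤ c ∨ d ≤ x → ∃ f ∈ F, f.eval x ≤ Q.eval x := by
  obtain ⟨κ, hκ⟩ : ∃ κ, κ * (d - c) = f2.eval d - f1.eval d :=
    ⟨_, div_mul_cancel₀ _ (sub_pos.2 hcd).ne'⟩
  have hκ0 : κ ≤ 0 := by
    by_contra h
    nlinarith [m2 f1 h1, mul_pos (not_le.1 h) (sub_pos.2 hcd)]
  have hA : ∀ᶠ Λ : ℝ in atTop, ∀ f ∈ F, ∀ x, c ≤ x → x ≤ d →
      0 ≤ (f - f1 - C κ * (X - C c)).eval x + Λ * ((x - c) * (d - x)) := by
    rw [eventually_all_finite hF]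
    intro f hf
    refine big hcd ?_ ?_
    · simpa using m1 f hf
    · simp only [eval_sub, eval_mul, eval_C, eval_X]
      linarith [m2 f hf]
  obtain ⟨B, hB⟩ := lip (f1 - f2 + C κ * (X - C c)) d (d + 1) d
  obtain ⟨Λ0, h0⟩ := eventually_atTop.1 (hA.and ((eventually_ge_atTop (B / (d - c))).and
    (eventually_ge_atTop (-κ))))
  obtain ⟨a0, -⟩ := h0 Λ0 le_rfl
  obtain ⟨a1, a2, a3⟩ := h0 (Λ0 + 1) (by linarith)
  rw [div_le_iff₀ (sub_pos.2 hcd)] at a2
  simp only [eval_sub, eval_add, eval_mul, eval_C, eval_X] at a0 a1 hB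
  have ev : ∀ x, (f1 + C κ * (X - C c) + C (Λ0 + 1) * ((X - C c) * (X - C d))).eval x
      = f1.eval x + κ * (x - c) + (Λ0 + 1) * ((x - c) * (x - d)) := by
    intro x
    simp only [eval_sub, eval_add, eval_mul, eval_C, eval_X]
  refine ⟨f1 + C κ * (X - C c) + C (Λ0 + 1) * ((X - C c) * (X - C d)), fun h => ?_, ?_,
    fun x hx hx' f hf => ?_, fun x hx => ?_⟩
  · have := a0 _ h ((c + d) / 2) (by linarith) (by linarith)
    rw [ev] at this
    nlinarith [mul_pos (sub_pos.2 hcd) (sub_pos.2 hcd)]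
  · have := hdeg f1 h1
    refine (natDegree_add_le _ _).trans (max_le ((natDegree_add_le _ _).trans (max_le this ?_)) ?_)
    · compute_degree!
    · compute_degree!
  · have := a1 f hf x hx hx'
    rw [ev]
    linarith
  · rw [ev]
    rcases hx with hx | hx
    · refine ⟨f1, h1, ?_⟩
      have k1 : 0 ≤ κ * (x - c) := mul_nonneg_of_nonpos_of_nonpos hκ0 (by linarith)
      have k2 : 0 ≤ (Λ0 + 1) * ((x - c) * (x - d)) :=
        mul_nonneg (by linarith) (mul_nonneg_of_nonpos_of_nonpos (by linarith) (by linarith))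
      linarith
    · rcases le_total x (d + 1) with k | k
      · refine ⟨f2, h2, ?_⟩
        have := hB x hx k
        rw [abs_of_nonneg (by linarith)] at this
        have k1 : B ≤ (Λ0 + 1) * (x - c) :=
          a2.trans (mul_le_mul_of_nonneg_left (by linarith) (by linarith))
        nlinarith [mul_le_mul_of_nonneg_right k1 (sub_nonneg.2 hx)]
      · refine ⟨f1, h1, ?_⟩
        have k1 : 0 ≤ κ + (Λ0 + 1) * (x - d) := by nlinarith
        nlinarith [mul_nonneg k1 (show 0 ≤ x - c by linarith)]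

theorem R_cover {w1 mid w2 : List ℕ} {q : ℕ} (h : R (w1 ++ mid ++ w2)) (n1 : w1 ≠ [])
    (n0 : mid ≠ []) (n2 : w2 ≠ []) (q1 : q ∉ w1) (q2 : q ∉ w2) : R (w1 ++ q :: w2) := by
  classical
  obtain ⟨φ, i1, d1, a, b, s, l, r⟩ := h
  set F : Set ℝ[X] := {g | g ∈ (w1 ++ mid ++ w2).map φ} with hF
  rw [map_append, map_append] at s l r
  obtain ⟨d, s0, s2⟩ := seg_split _ s
  obtain ⟨c, s1, s0⟩ := seg_split _ s0
  obtain ⟨hcd, f1, h1, m1⟩ := seg_head s0 (by simpa using n0)
  obtain ⟨-, f2, h2, m2⟩ := seg_head s2 (by simpa using n2)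
  obtain ⟨Q, k1, k2, k3, k4⟩ := exists_cover (F := F) (List.finite_toSet _) (fun f hf => by
    obtain ⟨z, hz, rfl⟩ := List.mem_map.1 hf
    exact d1 z hz) hcd h1 h2 m1 m2
  have out : ∀ g x, x ≤ c ∨ d ≤ x → MinAt F g x → MinAt (insert Q F) g x := by
    intro g x hx hg f hf
    rcases hf with rfl | hf
    · obtain ⟨f', hf', k⟩ := k4 x hx
      exact (hg f' hf').trans k
    · exact hg f hf
  have e1 : w1.map (Function.update φ q Q) = w1.map φ :=
    List.map_congr_left fun z hz => Function.update_of_ne (by rintro rfl; exact q1 hz) _ _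
  have e2 : w2.map (Function.update φ q Q) = w2.map φ :=
    List.map_congr_left fun z hz => Function.update_of_ne (by rintro rfl; exact q2 hz) _ _
  have hmem : ∀ z ∈ w1 ++ q :: w2, z ≠ q → z ∈ w1 ++ mid ++ w2 := by
    intro z hz hne
    simp only [mem_append, mem_cons] at hz ⊢
    tauto
  refine ⟨Function.update φ q Q, fun y hy z hz hyz => ?_, fun z hz => ?_,
    Env.self (F := insert Q F) ?_⟩
  · by_cases hy' : y = q <;> by_cases hz' : z = q
    · rw [hy', hz']
    · rw [hy', Function.update_self, Function.update_of_ne hz'] at hyz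
      exact absurd (hyz ▸ List.mem_map_of_mem (hmem z hz hz')) k1
    · rw [hz', Function.update_self, Function.update_of_ne hy'] at hyz
      exact absurd (hyz ▸ List.mem_map_of_mem (hmem y hy hy')) k1
    · rw [Function.update_of_ne hy', Function.update_of_ne hz'] at hyz
      exact i1 (hmem y hy hy') (hmem z hz hz') hyz
  · by_cases hz' : z = q
    · rw [hz', Function.update_self]
      exact k2
    · rw [Function.update_of_ne hz']
      exact d1 z (hmem z hz hz')
  · rw [map_append, map_cons, e1, e2, Function.update_self]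
    have t1 := s1.transfer (G := insert Q F) id 0 (fun g hg => Or.inr (s1.mem g hg))
      fun g _ x _ hx hm => by simpa using out g x (Or.inl hx) hm
    have t2 := s2.transfer (G := insert Q F) id 0 (fun g hg => Or.inr (s2.mem g hg))
      fun g _ x hx _ hm => by simpa using out g x (Or.inr hx) hm
    simp only [add_zero, List.map_id] at t1 t2
    refine ⟨a, b, t1.append (Seg.cons hcd (Or.inl rfl) (fun x hx hx' f hf => ?_) t2),
      fun g hg x hx => out g x (Or.inl (hx.trans s1.le)) (l g ?_ x hx),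
      fun g hg x hx => out g x (Or.inr (s2.le.trans hx)) (r g ?_ x hx)⟩
    · rcases hf with rfl | hf
      · exact le_rfl
      · exact k3 x hx hx' f hf
    · obtain ⟨z, w, rfl⟩ := List.exists_cons_of_ne_nil n1
      simpa using hg
    · have n2' : w2.map φ ≠ [] := by simpa using n2
      rw [List.getLast?_append_of_ne_nil _ n2']
      rw [← List.singleton_append, ← List.append_assoc,
        List.getLast?_append_of_ne_nil _ n2'] at hg
      exact hg

end Pool.Agent.P.MP_10147b_co.Sharp
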