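import Mathlib

namespace Pool.Agent.P.MP_10147b_co.Sharp

open Finset

/-- no `ababa` among the positions `P` with letters `x` -/
def Free (x : ℕ → ℕ) (P : Finset ℕ) : Prop :=
  ∀ p1 ∈ P, ∀ p2 ∈ P, ∀ p3 ∈ P, ∀ p4 ∈ P, ∀ p5 ∈ P, p1 < p2 → p2 < p3 → p3 < p4 → p4 < p5 →
    x p1 = x p3 → x p3 = x p5 → x p2 = x p4 → x p1 = x p2

/-- `β` cuts the positions into consecutive blocks of distinct letters -/
def Blk (x β : ℕ → ℕ) (P : Finset ℕ) : Prop :=
  (∀ p ∈ P, ∀ q ∈ P, p ≤ q → β p ≤ β q) ∧ ∀ p ∈ P, ∀ q ∈ P, x p = x q → β p = β q → p = q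

theorem Free.mono {x : ℕ → ℕ} {P Q : Finset ℕ} (h : Free x P) (hQ : Q ⊆ P) : Free x Q :=
  fun p1 h1 p2 h2 p3 h3 p4 h4 p5 h5 => h p1 (hQ h1) p2 (hQ h2) p3 (hQ h3) p4 (hQ h4) p5 (hQ h5)

theorem Blk.lt {x β : ℕ → ℕ} {P : Finset ℕ} (h : Blk x β P) {p q : ℕ} (hp : p ∈ P) (hq : q ∈ P)
    (hpq : p < q) (hx : x p = x q) : β p < β q :=
  lt_of_le_of_ne (h.1 p hp q hq hpq.le) fun k => hpq.ne (h.2 p hp q hq hx k)

theorem Blk.lt' {x β : ℕ → ℕ} {P : Finset ℕ} (h : Blk x β P) {p q : ℕ} (hp : p ∈ P) (hq : q ∈ P)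
    (hpq : β p < β q) : p < q :=
  lt_of_not_ge fun k => absurd (h.1 q hq p hp k) (by omega)

/-- the letter at `p` occurs in one layer only -/
def Loc (x L : ℕ → ℕ) (P : Finset ℕ) (p : ℕ) : Prop := ∀ q ∈ P, x q = x p → L q = L p

/-- `p` is the first occurrence of its letter in its layer -/
def Fst (x L : ℕ → ℕ) (P : Finset ℕ) (p : ℕ) : Prop := ∀ q ∈ P, x q = x p → L q = L p → p ≤ q

open Classical in
theorem core {x β L : ℕ → ℕ} {P : Finset ℕ} {m : ℕ} (hF : Free x P) (hB : Blk x β P)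
    (hm : ∀ p ∈ P, β p ≤ m) (hL : ∀ p ∈ P, ∀ q ∈ P, β p ≤ β q → L p ≤ L q) :
    (P.filter fun p => ¬ Loc x L P p ∧ ¬ Fst x L P p).card
      ≤ 2 * ((P.filter fun p => ¬ Loc x L P p).image x).card + 2 * m := by
  set G := P.filter fun p => ¬ Loc x L P p ∧ ¬ Fst x L P p with hG
  set n := ((P.filter fun p => ¬ Loc x L P p).image x).card with hn
  have hGP : ∀ p ∈ G, p ∈ P := fun p hp => (mem_filter.1 hp).1
  have hprev : ∀ p ∈ G, ∃ q ∈ P, x q = x p ∧ L q = L p ∧ q < p := by
    intro p hp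
    have := (mem_filter.1 hp).2.2
    unfold Fst at this
    push Not at this
    exact this
  have hLlt : ∀ p ∈ P, ∀ q ∈ P, L p < L q → p < q := fun p hp q hq h =>
    lt_of_not_ge fun k => absurd (hL q hq p hp (hB.1 q hq p hp k)) (by omega)
  have hx : ∀ S : Finset ℕ, S ⊆ G → Set.InjOn x S → S.card ≤ n := by
    intro S hS hinj
    rw [← card_image_of_injOn hinj]
    refine card_le_card (image_subset_image fun p hp => ?_)
    have := mem_filter.1 (hS hp)
    exact mem_filter.2 ⟨this.1, this.2.1⟩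
  have hβ : ∀ S : Finset ℕ, S ⊆ G → (∀ p ∈ S, ∀ q ∈ S, p < q → β p ≠ β q) → S.card ≤ m := by
    intro S hS hinj
    have : S.card ≤ (Icc 1 m).card := by
      refine card_le_card_of_injOn β (fun p hp => ?_) fun p hp q hq h => ?_
      · obtain ⟨q, hq, k1, -, k3⟩ := hprev p (hS hp)
        have := hB.lt hq (hGP p (hS hp)) k3 k1
        have := hm p (hGP p (hS hp))
        simp only [coe_Icc, Set.mem_Icc]
        omega
      · rcases lt_trichotomy p q with k | k | k
        · exact absurd h (hinj p hp q hq k)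
        · exact k
        · exact absurd h.symm (hinj q hq p hp k)
    simpa using this
  let E := G.filter fun p => ∀ q ∈ P, x q = x p → q ≤ p
  let B2 := G.filter fun p => (∀ q ∈ P, x q = x p → L p ≤ L q) ∧
    ∀ q ∈ P, x q = x p → L q = L p → q ≤ p
  let A1 := G.filter fun p => (∃ q ∈ P, x q = x p ∧ L q < L p) ∧ ∃ q ∈ P, x q = x p ∧ p < q
  let B1 := G.filter fun p => (∃ q ∈ P, x q = x p ∧ L p < L q) ∧
    ∃ q ∈ P, x q = x p ∧ L q = L p ∧ p < q
  have c1 : E.card ≤ n := by
    refine hx E (filter_subset _ _) fun p hp q hq h => ?_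
    have k1 := mem_filter.1 hp
    have k2 := mem_filter.1 hq
    exact le_antisymm (k2.2 p (hGP p k1.1) h) (k1.2 q (hGP q k2.1) h.symm)
  have c2 : B2.card ≤ n := by
    refine hx B2 (filter_subset _ _) fun p hp q hq h => ?_
    have k1 := mem_filter.1 hp
    have k2 := mem_filter.1 hq
    have k3 : L p = L q :=
      le_antisymm (k1.2.1 q (hGP q k2.1) h.symm) (k2.2.1 p (hGP p k1.1) h)
    exact le_antisymm (k2.2.2 p (hGP p k1.1) h k3) (k1.2.2 q (hGP q k2.1) h.symm k3.symm)
  have c3 : A1.card ≤ m := by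
    refine hβ A1 (filter_subset _ _) fun p hp q hq hpq h => ?_
    obtain ⟨k1, ⟨a1, ha1, e1, l1⟩, a2, ha2, e2, l2⟩ := mem_filter.1 hp
    have k2 := (mem_filter.1 hq).1
    have hp' := hGP p k1
    have hq' := hGP q k2
    obtain ⟨q1, hq1, e3, l3, l4⟩ := hprev q k2
    have l5 : L p = L q := le_antisymm (hL p hp' q hq' h.le) (hL q hq' p hp' h.ge)
    have o1 : a1 < q1 := hLlt a1 ha1 q1 hq1 (by omega)
    have o2 : q1 < p := hB.lt' hq1 hp' (by have := hB.lt hq1 hq' l4 e3; omega)
    have o3 : q < a2 := hB.lt' hq' ha2 (by have := hB.lt hp' ha2 l2 e2.symm; omega)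
    have := hF a1 ha1 q1 hq1 p hp' q hq' a2 ha2 o1 o2 hpq o3 e1 e2.symm e3
    exact hpq.ne (hB.2 p hp' q hq' (by omega) h)
  have c4 : B1.card ≤ m := by
    refine hβ B1 (filter_subset _ _) fun p hp q hq hpq h => ?_
    obtain ⟨k1, -, a2, ha2, e2, l1, l2⟩ := mem_filter.1 hp
    obtain ⟨k2, ⟨q2, hq2, e4, l6⟩, -⟩ := mem_filter.1 hq
    have hp' := hGP p k1
    have hq' := hGP q k2
    obtain ⟨q1, hq1, e3, l3, l4⟩ := hprev q k2
    have l5 : L p = L q := le_antisymm (hL p hp' q hq' h.le) (hL q hq' p hp' h.ge)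
    have o2 : q1 < p := hB.lt' hq1 hp' (by have := hB.lt hq1 hq' l4 e3; omega)
    have o3 : q < a2 := hB.lt' hq' ha2 (by have := hB.lt hp' ha2 l2 e2.symm; omega)
    have o4 : a2 < q2 := hLlt a2 ha2 q2 hq2 (by omega)
    have := hF q1 hq1 p hp' q hq' a2 ha2 q2 hq2 o2 hpq o3 o4 e3 e4.symm e2.symm
    exact hpq.ne (hB.2 p hp' q hq' (by omega) h)
  have cover : G ⊆ E ∪ B2 ∪ A1 ∪ B1 := by
    intro p hp
    have k := (mem_filter.1 hp).2.1
    unfold Loc at k
    push Not at k
    obtain ⟨q0, hq0, e0, l0⟩ := k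
    simp only [mem_union]
    by_cases h1 : ∃ q ∈ P, x q = x p ∧ L q < L p
    · by_cases h2 : ∃ q ∈ P, x q = x p ∧ p < q
      · exact Or.inl (Or.inr (mem_filter.2 ⟨hp, h1, h2⟩))
      · push Not at h2
        exact Or.inl (Or.inl (Or.inl (mem_filter.2 ⟨hp, h2⟩)))
    · push Not at h1
      by_cases h2 : ∃ q ∈ P, x q = x p ∧ L q = L p ∧ p < q
      · exact Or.inr (mem_filter.2 ⟨hp, ⟨q0, hq0, e0, by have := h1 q0 hq0 e0; omega⟩, h2⟩)
      · push Not at h2
        exact Or.inl (Or.inl (Or.inr (mem_filter.2 ⟨hp, h1, h2⟩)))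
  have u1 := card_union_le (E ∪ B2 ∪ A1) B1
  have u2 := card_union_le (E ∪ B2) A1
  have u3 := card_union_le E B2
  have := card_le_card cover
  omega

/-- blocked `ababa`-free words with at most `w + 1` blocks are short -/
def Bd (x : ℕ → ℕ) (μ c w : ℕ) : Prop :=
  ∀ (P : Finset ℕ) (β : ℕ → ℕ) (m : ℕ), m ≤ w → Free x P → Blk x β P → (∀ p ∈ P, β p ≤ m) →
    P.card ≤ μ * (P.image x).card + c * m

theorem Bd.mono {x : ℕ → ℕ} {μ c w μ' c' w' : ℕ} (h : Bd x μ c w) (h1 : μ ≤ μ') (h2 : c ≤ c')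
    (h3 : w' ≤ w) : Bd x μ' c' w' := by
  intro P β m hm hF hB hb
  exact (h P β m (hm.trans h3) hF hB hb).trans
    (add_le_add (Nat.mul_le_mul_right _ h1) (Nat.mul_le_mul_right _ h2))

theorem Bd.triv (x : ℕ → ℕ) (w : ℕ) : Bd x (w + 1) 0 w := by
  intro P β m hm _ hB hb
  have : P.card ≤ (range (w + 1) ×ˢ P.image x).card := by
    refine card_le_card_of_injOn (fun p => (β p, x p)) (fun p hp => ?_) fun p hp q hq h => ?_
    · have := hb p hp
      simp only [coe_product, coe_range, coe_image, Set.mem_prod, Set.mem_Iio]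
      exact ⟨by omega, p, hp, rfl⟩
    · exact hB.2 p hp q hq (congrArg Prod.snd h) (congrArg Prod.fst h)
  simpa using this

theorem Bd.step {x : ℕ → ℕ} {μ c w μ' c' W ν M : ℕ} (h : Bd x μ c w) (h' : Bd x μ' c' W)
    (hμ : μ' + 2 ≤ μ) (hc : c' ≤ ν * (w + 1)) (hM : M / (w + 1) ≤ W) :
    Bd x μ (c + 2 + ν) M := by
  classical
  intro P β m hm hF hB hb
  let L : ℕ → ℕ := fun p => β p / (w + 1)
  have hL : ∀ p ∈ P, ∀ q ∈ P, β p ≤ β q → L p ≤ L q := fun p _ q _ k => Nat.div_le_div_right k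
  have k0 := core hF hB hb hL
  set b := m / (w + 1) with hbdef
  set Lo := P.filter fun p => Loc x L P p with hLo
  set G := P.filter fun p => ¬ Loc x L P p with hG
  set R := P.filter fun p => ¬ Loc x L P p ∧ Fst x L P p with hR
  have hLb : ∀ p ∈ P, L p ≤ b := fun p hp => Nat.div_le_div_right (hb p hp)
  have k1 : R.card ≤ μ' * (G.image x).card + c' * b := by
    refine (h' R L b ((Nat.div_le_div_right hm).trans hM) (hF.mono (filter_subset _ _))
      ⟨fun p hp q hq k => ?_, fun p hp q hq e1 e2 => ?_⟩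
      fun p hp => hLb p (mem_filter.1 hp).1).trans ?_
    · exact Nat.div_le_div_right (hB.1 p (mem_filter.1 hp).1 q (mem_filter.1 hq).1 k)
    · have a1 := mem_filter.1 hp
      have a2 := mem_filter.1 hq
      exact le_antisymm (a1.2.2 q a2.1 e1.symm e2.symm) (a2.2.2 p a1.1 e1 e2)
    · refine add_le_add (Nat.mul_le_mul_left _ (card_le_card (image_subset_image ?_))) le_rfl
      exact fun p hp => mem_filter.2 ⟨(mem_filter.1 hp).1, (mem_filter.1 hp).2.1⟩
  have k2 : Lo.card ≤ μ * (Lo.image x).card + c * m := by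
    rw [card_eq_sum_card_fiberwise (f := L) (t := range (b + 1)) fun p hp => by
      have := hLb p (mem_filter.1 hp).1
      simp only [coe_range, Set.mem_Iio]
      omega]
    have e1 : ∀ l ∈ range (b + 1), (Lo.filter fun p => L p = l).card
        ≤ μ * ((Lo.filter fun p => L p = l).image x).card + c * min w (m - l * (w + 1)) := by
      intro l _
      have hsub : (Lo.filter fun p => L p = l) ⊆ P :=
        (filter_subset _ _).trans (filter_subset _ _)
      have hdm : ∀ p ∈ Lo.filter fun p => L p = l, β p = l * (w + 1) + β p % (w + 1) := by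
        intro p hp
        have := (mem_filter.1 hp).2
        rw [← this]
        exact (Nat.div_add_mod' _ _).symm
      refine h _ (fun p => β p % (w + 1)) _ (min_le_left _ _) (hF.mono hsub)
        ⟨fun p hp q hq k => ?_, fun p hp q hq e1 e2 => ?_⟩ fun p hp => ?_
      · have := hB.1 p (hsub hp) q (hsub hq) k
        have := hdm p hp
        have := hdm q hq
        beta_reduce
        omega
      · refine hB.2 p (hsub hp) q (hsub hq) e1 ?_
        have := hdm p hp
        have := hdm q hq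
        beta_reduce at e2
        omega
      · have := hdm p hp
        have := hb p (hsub hp)
        have : β p % (w + 1) < w + 1 := Nat.mod_lt _ (Nat.succ_pos w)
        rw [le_min_iff]
        omega
    refine (sum_le_sum e1).trans ?_
    rw [sum_add_distrib, ← mul_sum, ← mul_sum]
    refine add_le_add (Nat.mul_le_mul_left _ ?_) (Nat.mul_le_mul_left _ ?_)
    · rw [← card_biUnion]
      · exact card_le_card (biUnion_subset.2 fun l _ => image_subset_image (filter_subset _ _))
      · intro l _ l' _ hne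
        rw [Function.onFun, disjoint_left]
        intro a ha ha'
        obtain ⟨p, hp, rfl⟩ := mem_image.1 ha
        obtain ⟨q, hq, e⟩ := mem_image.1 ha'
        have a1 := mem_filter.1 hp
        have a2 := mem_filter.1 hq
        have := (mem_filter.1 a1.1).2 q (mem_filter.1 a2.1).1 e
        omega
    · rw [sum_range_succ]
      have s1 : ∑ l ∈ range b, min w (m - l * (w + 1)) ≤ b * w := by
        refine (sum_le_card_nsmul _ _ w fun l _ => min_le_left _ _).trans ?_
        simp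
      have s2 := min_le_right w (m - b * (w + 1))
      have s3 : b * (w + 1) ≤ m := Nat.div_mul_le_self _ _
      have s4 : b * w ≤ b * (w + 1) := Nat.mul_le_mul_left _ (Nat.le_succ w)
      omega
  have k3 : (Lo.image x).card + (G.image x).card ≤ (P.image x).card := by
    rw [← card_union_of_disjoint]
    · exact card_le_card (union_subset (image_subset_image (filter_subset _ _))
        (image_subset_image (filter_subset _ _)))
    · rw [disjoint_left]
      intro a ha ha'
      obtain ⟨p, hp, rfl⟩ := mem_image.1 ha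
      obtain ⟨q, hq, e⟩ := mem_image.1 ha'
      have a1 := mem_filter.1 hp
      have a2 := mem_filter.1 hq
      refine a2.2 fun r hr e' => ?_
      rw [a1.2 r hr (e'.trans e), a1.2 q a2.1 e]
  have k4 : P ⊆ Lo ∪ R ∪ P.filter fun p => ¬ Loc x L P p ∧ ¬ Fst x L P p := by
    intro p hp
    simp only [hLo, hR, mem_union, mem_filter]
    tauto
  have k5 := card_le_card k4
  have u1 := card_union_le (Lo ∪ R) (P.filter fun p => ¬ Loc x L P p ∧ ¬ Fst x L P p)
  have u2 := card_union_le Lo R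
  have k6 : c' * b ≤ ν * m := by
    calc c' * b ≤ ν * (w + 1) * b := Nat.mul_le_mul_right _ hc
      _ = ν * (b * (w + 1)) := by ring
      _ ≤ ν * m := Nat.mul_le_mul_left _ (Nat.div_mul_le_self _ _)
  have k7 := Nat.mul_le_mul_right (G.image x).card hμ
  have k8 := Nat.mul_le_mul_left μ k3
  nlinarith

theorem Bd.base (x : ℕ → ℕ) (j : ℕ) : Bd x 4 (2 * j) j := by
  induction j with
  | zero => exact (Bd.triv x 0).mono (by omega) le_rfl le_rfl
  | succ j ih =>
    refine (ih.step (ν := 0) (M := j + 1) (Bd.triv x 1) le_rfl (by omega) ?_).mono le_rfl (by omega)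
      le_rfl
    rw [Nat.div_self (Nat.succ_pos j)]

theorem bd_ack (x : ℕ → ℕ) (i : ℕ) : ∀ j, Bd x (2 * i + 4) ((2 * i + 4) * (j + 3)) (ack i j + 2) := by
  induction i with
  | zero =>
    intro j
    rw [ack_zero]
    exact (Bd.base x (j + 3)).mono (by omega) (by omega) (by omega)
  | succ i ih =>
    intro j
    induction j with
    | zero =>
      rw [ack_succ_zero]
      refine (((Bd.base x 3).mono (μ' := 2 * (i + 1) + 4) (by omega) le_rfl le_rfl).step
        (ν := 2 * i + 4) (ih 1) (by omega) le_rfl (Nat.div_le_self _ _)).mono le_rfl (by omega)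
        le_rfl
    | succ j ihj =>
      rw [ack_succ_succ]
      refine (ihj.step (ν := 2 * i + 4) (ih (ack (i + 1) j)) (by omega) le_rfl
        (Nat.div_le_self _ _)).mono le_rfl (by nlinarith) le_rfl

theorem ack_le_zero (j : ℕ) : ∀ i, ack i j ≤ ack (i + j) 0 := by
  induction j with
  | zero => exact fun i => le_rfl
  | succ j ih =>
    intro i
    refine (ack_succ_right_le_ack_succ_left i j).trans ?_
    rw [show i + (j + 1) = i + 1 + j by ring]
    exact ih _

theorem bd_main (x : ℕ → ℕ) (i : ℕ) : Bd x (12 * i + 12) 3 (ack i i) := by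
  have h := bd_ack x (i + i) 0
  refine ((Bd.triv x (12 * i + 11)).step (ν := 1) h (by omega) (by omega) ?_).mono le_rfl le_rfl
    le_rfl
  exact (Nat.div_le_self _ _).trans ((ack_le_zero i i).trans (by omega))

end Pool.Agent.P.MP_10147b_co.Sharp
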