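import Pool.Agent.P.MP_10147b_co.Env
import Pool.Agent.P.MP_10147b_co.Sharp.Upper

namespace Pool.Agent.P.MP_10147b_co.Sharp

open Polynomial List

theorem sub_destutter' {α : Type} [DecidableEq α] (w : List α) : ∀ (a : α) (l : List α),
    l.IsChain (· ≠ ·) → l <+ a :: w → l <+ w.destutter' (· ≠ ·) a := by
  induction w with
  | nil => intro a l _ h; simpa using h
  | cons b w ih =>
    intro a l hc h
    by_cases hab : a ≠ b
    · rw [destutter'_cons_pos _ hab]
      cases h with
      | cons _ h => exact (ih b l hc h).cons _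
      | cons_cons _ h => exact (ih b _ hc.tail h).cons_cons _
    · rw [destutter'_cons_neg _ hab]
      push Not at hab
      subst hab
      refine ih a l hc ?_
      cases h with
      | cons _ h => exact h
      | cons_cons _ h =>
        cases h with
        | cons _ h => exact h.cons_cons _
        | cons_cons _ h => exact absurd rfl (List.isChain_cons_cons.1 hc).1

theorem sub_destutter {α : Type} [DecidableEq α] {w l : List α} (hc : l.IsChain (· ≠ ·))
    (h : l <+ w) : l <+ w.destutter (· ≠ ·) := by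
  cases w with
  | nil => exact h
  | cons a w => exact sub_destutter' w a l hc h

theorem env_free {F : Finset ℝ[X]} {e : List ℝ[X]} (h : IsEnvelope F e)
    (hdeg : ∀ f ∈ F, f.natDegree ≤ 3) {f g : ℝ[X]} (hfg : f ≠ g) : ¬ [f, g, f, g, f] <+ e := by
  intro hl
  obtain ⟨r, t, G, ht, -, -, -, hG, rfl⟩ := h
  have hl' := hl.trans (destutter_sublist _ _)
  rw [List.ofFn_eq_map, List.sublist_map_iff] at hl'
  obtain ⟨I, hI, hI'⟩ := hl'
  have hs : I.Pairwise (· < ·) := (List.sortedLT_finRange _).pairwise.sublist hI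
  have hq : f - g ≠ 0 := sub_ne_zero.2 hfg
  have hZ : {x | IsRoot (f - g) x}.Finite := finite_setOfPred_isRoot hq
  have hy : ∀ i : Fin (r + 1), ∃ y : ℝ, t i.castSucc < y ∧ y < t i.succ ∧
      y ∉ {x | IsRoot (f - g) x} := by
    intro i
    obtain ⟨u, u1, u2⟩ := EReal.lt_iff_exists_real_btwn.1 (ht (Fin.castSucc_lt_succ (i := i)))
    obtain ⟨v, v1, v2⟩ := EReal.lt_iff_exists_real_btwn.1 u2
    obtain ⟨y, y1, y2⟩ := ((Set.Ioo_infinite (EReal.coe_lt_coe_iff.1 v1)).sdiff hZ).nonempty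
    exact ⟨y, u1.trans (EReal.coe_lt_coe_iff.2 y1.1), (EReal.coe_lt_coe_iff.2 y1.2).trans v2, y2⟩
  choose y y1 y2 y3 using hy
  have hym : ∀ i j, i < j → y i < y j := fun i j hij =>
    EReal.coe_lt_coe_iff.1 ((y2 i).trans_le ((ht.monotone
      (Fin.succ_le_castSucc_iff.2 hij)).trans (y1 j).le))
  simp only [eq_comm (a := _ :: _), map_eq_cons_iff, map_eq_nil_iff] at hI'
  obtain ⟨i1, _, rfl, e1, i2, _, rfl, e2, i3, _, rfl, e3, i4, _, rfl, e4, i5, _, rfl, e5, rfl⟩ :=
    hI'
  replace e1 := e1.symm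
  replace e2 := e2.symm
  replace e3 := e3.symm
  replace e4 := e4.symm
  replace e5 := e5.symm
  have hf : f ∈ F := e1 ▸ (hG i1).1
  have hg : g ∈ F := e2 ▸ (hG i2).1
  have neg : ∀ i, f = G i → (f - g).eval (y i) < 0 := by
    intro i hi
    refine lt_of_le_of_ne ?_ (y3 i)
    rw [eval_sub]
    have := (hG i).2 _ (y1 i) (y2 i) g hg
    rw [← hi] at this
    linarith
  have pos : ∀ i, g = G i → 0 < (f - g).eval (y i) := by
    intro i hi
    refine lt_of_le_of_ne ?_ (Ne.symm (y3 i))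
    rw [eval_sub]
    have := (hG i).2 _ (y1 i) (y2 i) f hf
    rw [← hi] at this
    linarith
  simp only [pairwise_cons, mem_cons, forall_eq_or_imp] at hs
  obtain ⟨z1, a1, b1, c1⟩ := root_between (hym _ _ hs.1.1)
    (mul_neg_of_neg_of_pos (neg _ e1) (pos _ e2))
  obtain ⟨z2, a2, b2, c2⟩ := root_between (hym _ _ hs.2.1.1)
    (mul_neg_of_pos_of_neg (pos _ e2) (neg _ e3))
  obtain ⟨z3, a3, b3, c3⟩ := root_between (hym _ _ hs.2.2.1.1)
    (mul_neg_of_neg_of_pos (neg _ e3) (pos _ e4))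
  obtain ⟨z4, a4, b4, c4⟩ := root_between (hym _ _ hs.2.2.2.1.1)
    (mul_neg_of_pos_of_neg (pos _ e4) (neg _ e5))
  apply hq
  have hd : (f - g).natDegree ≤ 3 :=
    (natDegree_sub_le f g).trans (max_le (hdeg f hf) (hdeg g hg))
  apply eq_zero_of_natDegree_lt_card_of_eval_eq_zero (f - g) (f := ![z1, z2, z3, z4])
  · apply StrictMono.injective
    rw [Fin.strictMono_iff_lt_succ]
    intro i
    fin_cases i <;> simp <;> linarith
  · intro i
    fin_cases i
    exacts [c1, c2, c3, c4]
  · simp only [Fintype.card_fin]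
    omega

theorem realized_free {w : List ℕ} (h : Realized 3 w) {a b : ℕ} (hab : a ≠ b) :
    ¬ [a, b, a, b, a] <+ w := by
  intro hl
  obtain ⟨F, φ, h1, h2, h3⟩ := h
  have k := (sub_destutter (by simp [hab, hab.symm]) hl).map φ
  exact env_free h3 h1 (h2.ne (hl.subset (by simp)) (hl.subset (by simp)) hab) k

theorem free_of_list {x : ℕ → ℕ} {I : List ℕ} (hI : I.Pairwise (· < ·))
    (h : ∀ a b, a ≠ b → ¬ [a, b, a, b, a] <+ I.map x) : Free x I.toFinset := by
  intro p1 h1 p2 h2 p3 h3 p4 h4 p5 h5 l1 l2 l3 l4 e1 e2 e3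
  by_contra hne
  have k : [p1, p2, p3, p4, p5] <+ I := by
    have hs : [p1, p2, p3, p4, p5].Pairwise (· < ·) := by
      simp only [pairwise_cons, mem_cons, forall_eq_or_imp, not_mem_nil, IsEmpty.forall_iff,
        implies_true, Pairwise.nil, and_true]
      omega
    refine sublist_of_subperm_of_pairwise (r := (· ≤ ·))
      (subperm_of_subset (hs.imp ne_of_lt) fun z hz => ?_) (hs.imp le_of_lt) (hI.imp le_of_lt)
    simp only [mem_toFinset] at h1 h2 h3 h4 h5
    simp only [mem_cons, not_mem_nil, or_false] at hz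
    rcases hz with rfl | rfl | rfl | rfl | rfl <;> assumption
  have := k.map x
  simp only [map_cons, map_nil] at this
  rw [← e2, ← e1, ← e3] at this
  exact h _ _ hne this

theorem blk_div {s : ℕ} (P : Finset ℕ) : Blk (· % s) (· / s) P := by
  refine ⟨fun p _ q _ h => Nat.div_le_div_right h, fun p _ q _ h1 h2 => ?_⟩
  rw [← Nat.div_add_mod p s, ← Nat.div_add_mod q s]
  beta_reduce at h1 h2
  rw [h1, h2]

theorem image_mod_le {s : ℕ} (hs : 0 < s) (P : Finset ℕ) : (P.image (· % s)).card ≤ s := by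
  refine (Finset.card_le_card (t := Finset.range s) fun a ha => ?_).trans (by simp)
  obtain ⟨p, -, rfl⟩ := Finset.mem_image.1 ha
  exact Finset.mem_range.2 (Nat.mod_lt _ hs)

theorem sp_le {m i s : ℕ} (hm : m ≤ ack i i) (hs : 0 < s) :
    sp m 3 ≤ (12 * i + 12) * s + 3 * (m / s) := by
  have h0 : sp m 3 ≤ LSP ((List.range m).map (· % s)) 3 := Nat.sInf_le ⟨_, by simp, rfl⟩
  refine h0.trans (csSup_le' ?_)
  rintro n ⟨w, hw, hR, rfl⟩
  obtain ⟨I, hI, rfl⟩ := List.sublist_map_iff.1 hw
  have hs' : I.Pairwise (· < ·) := (List.pairwise_lt_range).sublist hI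
  have k := bd_main (· % s) i I.toFinset (· / s) (m / s) ((Nat.div_le_self _ _).trans hm)
    (free_of_list hs' fun a b hab => realized_free hR hab) (blk_div _) fun p hp =>
      Nat.div_le_div_right (List.mem_range.1 (hI.subset (mem_toFinset.1 hp))).le
  rw [List.toFinset_card_of_nodup (hs'.imp ne_of_lt)] at k
  rw [length_map]
  exact k.trans (add_le_add (Nat.mul_le_mul_left _ (image_mod_le hs _)) le_rfl)

end Pool.Agent.P.MP_10147b_co.Sharp
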