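import Pool.Agent.P.MP_10147b_co.Sharp.Long
import Pool.Agent.P.MP_10147b_co.Sharp.Cover
import Pool.Agent.P.MP_10147b_co.Sharp.UpperSp

namespace Pool.Agent.P.MP_10147b_co.Sharp

open List

theorem R_map {w : List ℕ} (h : R w) {ψ : ℕ → ℕ} (hψ : Set.InjOn ψ {a | a ∈ w}) :
    R (w.map ψ) := by
  obtain ⟨φ, h1, h2, h3⟩ := h
  have hφ : ∀ a ∈ w, Function.invFunOn ψ {a | a ∈ w} (ψ a) = a := fun a ha =>
    hψ.leftInvOn_invFunOn ha
  have e : (w.map ψ).map (φ ∘ Function.invFunOn ψ {a | a ∈ w}) = w.map φ := by
    rw [List.map_map]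
    exact List.map_congr_left fun a ha => congrArg φ (hφ a ha)
  refine ⟨φ ∘ Function.invFunOn ψ {a | a ∈ w}, fun a ha b hb k => ?_, fun a ha => ?_, by rwa [e]⟩
  · obtain ⟨a, ha', rfl⟩ := List.mem_map.1 ha
    obtain ⟨b, hb', rfl⟩ := List.mem_map.1 hb
    simp only [Function.comp, hφ a ha', hφ b hb'] at k
    rw [h1 ha' hb' k]
  · obtain ⟨a, ha', rfl⟩ := List.mem_map.1 ha
    simp only [Function.comp, hφ a ha']
    exact h2 a ha'

/-- every stretch that starts at a marked position which is not kept becomes one new letter -/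
theorem cover_all {x : ℕ → ℕ} {Fs K : ℕ → Prop} [DecidablePred Fs] [DecidablePred K] {N : ℕ}
    {I pre suf : List ℕ} (hI : I.Nodup) (hx : ∀ p ∈ I, x p < N)
    (n1 : pre ≠ []) (n2 : suf ≠ []) (hz : ∀ p ∈ I, N + p ∉ pre ∧ N + p ∉ suf)
    (H0 : ∀ q r, I = q :: r → Fs q) (H1 : ∀ d p q r, I = d ++ p :: q :: r → K p → Fs q)
    (todo : List ℕ) : ∀ dn : List ℕ, I = dn ++ todo →
      R (pre ++ (dn.filter (Fs ·)).map (fun p => if K p then x p else N + p)
        ++ todo.map x ++ suf) →
      (dn = [] ∨ (∃ d p, dn = d ++ [p] ∧ K p) ∨ ∃ T p, p ∈ I ∧ N + p ∉ T ∧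
        (dn.filter (Fs ·)).map (fun p => if K p then x p else N + p) = T ++ [N + p]) →
      R (pre ++ (I.filter (Fs ·)).map (fun p => if K p then x p else N + p) ++ suf) := by
  induction todo with
  | nil =>
    intro dn e h _
    simpa [e] using h
  | cons q r ih =>
    intro dn e h inv
    have hq : q ∈ I := by simp [e]
    have hout : ∀ p ∈ I, N + p ∉ r.map x ++ suf := by
      intro p hp k
      rcases mem_append.1 k with k | k
      · obtain ⟨t, ht, k⟩ := mem_map.1 k
        have := hx t (by simp [e, ht])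
        omega
      · exact (hz p hp).2 k
    by_cases hF : Fs q
    · by_cases hk : K q
      · refine ih (dn ++ [q]) (by simp [e]) ?_ (Or.inr (Or.inl ⟨dn, q, rfl, hk⟩))
        simpa [filter_append, hF, hk] using h
      · have hnew : N + q ∉ (dn.filter (Fs ·)).map fun p => if K p then x p else N + p := by
          intro k
          obtain ⟨t, ht, k⟩ := mem_map.1 k
          have ht' := (mem_filter.1 ht).1
          split_ifs at k
          · have := hx t (by simp [e, ht'])
            omega
          · rw [e, nodup_append] at hI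
            exact hI.2.2 t ht' q (by simp) (by omega)
        refine ih (dn ++ [q]) (by simp [e]) ?_
          (Or.inr (Or.inr ⟨_, q, hq, hnew, by simp [filter_append, hF, hk]⟩))
        have := R_cover (w1 := pre ++ (dn.filter (Fs ·)).map fun p => if K p then x p else N + p)
          (mid := [x q]) (w2 := r.map x ++ suf) (q := N + q) (by simpa using h) (by simp [n1])
          (by simp) (by simp [n2]) (fun k => (mem_append.1 k).elim (hz q hq).1 hnew) (hout q hq)
        simpa [filter_append, hF, hk] using this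
    · rcases inv with rfl | ⟨d, p, rfl, hp⟩ | ⟨T, p, hp, hT, e'⟩
      · exact absurd (H0 q r e) hF
      · exact absurd (H1 d p q r (by simp [e]) hp) hF
      · refine ih (dn ++ [q]) (by simp [e]) ?_
          (Or.inr (Or.inr ⟨T, p, hp, hT, by simp [filter_append, hF, e']⟩))
        rw [e'] at h
        have := R_cover (w1 := pre ++ T) (mid := [N + p, x q]) (w2 := r.map x ++ suf) (q := N + p)
          (by simpa using h) (by simp [n1]) (by simp) (by simp [n2])
          (fun k => (mem_append.1 k).elim (hz p hp).1 hT) (hout p hp)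
        simpa [filter_append, hF, e'] using this

theorem exists_rk {β : Type} [LinearOrder β] (W : Finset ℕ) (κ : ℕ → β) : ∃ rk : ℕ → ℕ,
    (∀ c ∈ W, rk c < W.card) ∧ ∀ c ∈ W, ∀ c', κ c < κ c' → rk c < rk c' := by
  refine ⟨fun c => (W.filter fun z => κ z < κ c).card, fun c hc => ?_, fun c hc c' h => ?_⟩
  · refine Finset.card_lt_card ⟨Finset.filter_subset _ _, fun k => ?_⟩
    simpa using k hc
  · refine Finset.card_lt_card ⟨fun z hz => ?_, fun k => ?_⟩
    · exact Finset.mem_filter.2 ⟨(Finset.mem_filter.1 hz).1, (Finset.mem_filter.1 hz).2.trans h⟩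
    · simpa using k (Finset.mem_filter.2 ⟨hc, h⟩)

/-- first in its layer, with occurrences in an earlier and in a later layer -/
def Kp (x L : ℕ → ℕ) (P : Finset ℕ) (p : ℕ) : Prop :=
  Fst x L P p ∧ (∃ q ∈ P, x q = x p ∧ L q < L p) ∧ ∃ q ∈ P, x q = x p ∧ L p < L q

open Classical in
theorem card_starts {x L : ℕ → ℕ} {P : Finset ℕ} :
    (P.filter fun p => Fst x L P p ∧ ¬ Kp x L P p).card ≤ 2 * (P.image x).card := by
  have key : ∀ S : Finset ℕ, S ⊆ P → (∀ p ∈ S, Fst x L P p) →
      (∀ p ∈ S, ∀ q ∈ S, x p = x q → L p ≤ L q) → S.card ≤ (P.image x).card := by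
    intro S h1 h2 h3
    rw [← Finset.card_image_of_injOn (f := x) fun p hp q hq h => ?_]
    · exact Finset.card_le_card (Finset.image_subset_image h1)
    · have := le_antisymm (h3 p hp q hq h) (h3 q hq p hp h.symm)
      exact le_antisymm (h2 p hp q (h1 hq) h.symm this.symm) (h2 q hq p (h1 hp) h this)
  have c1 := key (P.filter fun p => Fst x L P p ∧ ∀ q ∈ P, x q = x p → L p ≤ L q)
    (Finset.filter_subset _ _) (fun p hp => (Finset.mem_filter.1 hp).2.1) fun p hp q hq h =>
      (Finset.mem_filter.1 hp).2.2 q (Finset.mem_filter.1 hq).1 h.symm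
  have c2 := key (P.filter fun p => Fst x L P p ∧ ∀ q ∈ P, x q = x p → L q ≤ L p)
    (Finset.filter_subset _ _) (fun p hp => (Finset.mem_filter.1 hp).2.1) fun p hp q hq h =>
      (Finset.mem_filter.1 hq).2.2 p (Finset.mem_filter.1 hp).1 h
  refine le_trans (Finset.card_le_card fun p hp => ?_)
    ((Finset.card_union_le _ _).trans ((add_le_add c1 c2).trans (by omega)))
  obtain ⟨h1, h2, h3⟩ := Finset.mem_filter.1 hp
  simp only [Kp, h2, true_and, not_and_or, not_exists, not_lt] at h3
  simp only [Finset.mem_union, Finset.mem_filter, h1, h2, true_and]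
  rcases h3 with h3 | h3
  · exact Or.inl fun q hq e => by have := h3 q; tauto
  · exact Or.inr fun q hq e => by have := h3 q; tauto

open Classical in
theorem card_fst {x β : ℕ → ℕ} {P : Finset ℕ} {m M : ℕ} (hM : 0 < M) (hF : Free x P)
    (hB : Blk x β P) (hm : ∀ p ∈ P, β p ≤ m) :
    P.card ≤ (P.filter fun p => Fst x (β · / M) P p).card + (M + 2) * (P.image x).card
      + 2 * m := by
  have k0 := core (L := (β · / M)) hF hB hm fun p _ q _ k => Nat.div_le_div_right k
  have k1 : (P.filter fun p => Loc x (β · / M) P p).card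
      ≤ (Finset.range M ×ˢ P.image x).card := by
    refine Finset.card_le_card_of_injOn (fun p => (β p % M, x p)) (fun p hp => ?_)
      fun p hp q hq h => ?_
    · simp only [Finset.coe_product, Finset.coe_range, Finset.coe_image, Set.mem_prod,
        Set.mem_Iio]
      exact ⟨Nat.mod_lt _ hM, p, (Finset.mem_filter.1 hp).1, rfl⟩
    · have a1 := Finset.mem_filter.1 hp
      have a2 := Finset.mem_filter.1 hq
      have e1 : x p = x q := congrArg Prod.snd h
      have e2 : β p % M = β q % M := congrArg Prod.fst h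
      have e3 : β q / M = β p / M := a1.2 q a2.1 e1.symm
      refine hB.2 p a1.1 q a2.1 e1 ?_
      rw [← Nat.div_add_mod (β p) M, ← Nat.div_add_mod (β q) M, e2, e3]
  rw [Finset.card_product, Finset.card_range] at k1
  have k2 : ((P.filter fun p => ¬ Loc x (β · / M) P p).image x).card ≤ (P.image x).card :=
    Finset.card_le_card (Finset.image_subset_image (Finset.filter_subset _ _))
  have k3 : P ⊆ (P.filter fun p => Fst x (β · / M) P p) ∪ (P.filter fun p => Loc x (β · / M) P p)
      ∪ P.filter fun p => ¬ Loc x (β · / M) P p ∧ ¬ Fst x (β · / M) P p := by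
    intro p hp
    simp only [Finset.mem_union, Finset.mem_filter]
    tauto
  have k4 := (Finset.card_le_card k3).trans ((Finset.card_union_le _ _).trans
    (add_le_add (Finset.card_union_le _ _) le_rfl))
  nlinarith

theorem exists_key {x L : ℕ → ℕ} {P : Finset ℕ} {N : ℕ} [DecidablePred (Kp x L P)]
    (hF : Free x P) (hL : ∀ p ∈ P, ∀ q ∈ P, p ≤ q → L p ≤ L q) (hx : ∀ p ∈ P, x p < N) :
    ∃ κ : ℕ → ℕ ×ₗ ℕ, Set.InjOn κ {c | N ≤ c ∨ ∃ p ∈ P, x p = c} ∧
      ∀ p ∈ P, ∀ q ∈ P, p < q → L p = L q →
        κ (if Kp x L P p then x p else N + p) < κ (if Kp x L P q then x q else N + q) := by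
  obtain ⟨U, hU⟩ : ∃ U, ∀ p ∈ P, p < U :=
    ⟨P.sup id + 1, fun p hp => Nat.lt_succ_of_le (Finset.le_sup (f := id) hp)⟩
  let f : ℕ → ℕ := fun c => sInf {p | p ∈ P ∧ x p = c}
  have f1 : ∀ p ∈ P, f (x p) ∈ P ∧ x (f (x p)) = x p := fun p hp =>
    Nat.sInf_mem (s := {t | t ∈ P ∧ x t = x p}) ⟨p, hp, rfl⟩
  have f2 : ∀ p ∈ P, f (x p) ≤ p := fun p hp => Nat.sInf_le ⟨hp, rfl⟩
  have hlt : ∀ p ∈ P, ∀ q ∈ P, L p < L q → p < q := fun p hp q hq h =>
    lt_of_not_ge fun k => absurd (hL q hq p hp k) (by omega)
  have kk : ∀ p ∈ P, ∀ q ∈ P, p < q → L p = L q → Kp x L P p → Kp x L P q →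
      U - f (x p) < U - f (x q) := by
    intro p hp q hq hpq e ⟨_, _, a2, ha2, e2, l2⟩ ⟨kq, ⟨b1, hb1, e1, l1⟩, _⟩
    have hne : x p ≠ x q := fun k => absurd (kq p hp k e) (by omega)
    have u1 := hU _ (f1 p hp).1
    suffices f (x q) < f (x p) by omega
    by_contra hge
    have o1 : f (x p) < f (x q) := lt_of_le_of_ne (not_lt.1 hge) fun k =>
      hne (by rw [← (f1 p hp).2, k, (f1 q hq).2])
    have o2 : f (x q) < p := by
      have := hL _ (f1 b1 hb1).1 b1 hb1 (f2 b1 hb1)
      rw [e1] at this
      exact hlt _ (f1 q hq).1 p hp (by omega)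
    have := hF _ (f1 p hp).1 _ (f1 q hq).1 p hp q hq a2 ha2 o1 o2 hpq
      (hlt q hq a2 ha2 (by omega)) (f1 p hp).2 e2.symm (f1 q hq).2
    rw [(f1 p hp).2, (f1 q hq).2] at this
    exact hne this
  let a : ℕ → ℕ := fun p =>
    (P.filter fun t => Kp x L P t ∧ t ≤ p ∧ L t = L p).sup fun t => U - f (x t)
  refine ⟨fun c => if c < N then toLex (U - f c, 0) else toLex (a (c - N), c - N + 1), ?_, ?_⟩
  · intro c hc c' hc' h
    beta_reduce at h
    split_ifs at h with h1 h2 h2
    · obtain ⟨p, hp, rfl⟩ := hc.resolve_left (by omega)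
      obtain ⟨q, hq, rfl⟩ := hc'.resolve_left (by omega)
      have e := congrArg Prod.fst (toLex.injective h)
      have u1 := hU _ (f1 p hp).1
      have u2 := hU _ (f1 q hq).1
      rw [← (f1 p hp).2, show f (x p) = f (x q) by simp only at e; omega, (f1 q hq).2]
    · simpa using congrArg Prod.snd (toLex.injective h)
    · simpa using congrArg Prod.snd (toLex.injective h)
    · have e := congrArg Prod.snd (toLex.injective h)
      simp only at e
      omega
  · intro p hp q hq hpq e
    have n1 : ¬ N + p < N := by omega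
    have n2 : ¬ N + q < N := by omega
    by_cases k1 : Kp x L P p <;> by_cases k2 : Kp x L P q <;>
      simp only [k1, k2, if_true, if_false, hx p hp, hx q hq, n1, n2, Nat.add_sub_cancel_left,
        Prod.Lex.toLex_lt_toLex]
    · exact Or.inl (kk p hp q hq hpq e k1 k2)
    · have : U - f (x p) ≤ a q := Finset.le_sup (f := fun t => U - f (x t))
        (Finset.mem_filter.2 ⟨hp, k1, hpq.le, e⟩)
      omega
    · refine Or.inl ((Finset.sup_lt_iff ?_).2 fun t ht => ?_)
      · have := hU _ (f1 q hq).1
        exact Nat.sub_pos_of_lt this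
      · obtain ⟨t1, t2, t3, t4⟩ := Finset.mem_filter.1 ht
        exact kk t t1 q hq (by omega) (by omega) t2 k2
    · have : a p ≤ a q := Finset.sup_mono fun t ht => by
        obtain ⟨t1, t2, t3, t4⟩ := Finset.mem_filter.1 ht
        exact Finset.mem_filter.2 ⟨t1, t2, by omega, by omega⟩
      omega

/-- a long realisable word on `5 n` letters that needs few monotone blocks -/
theorem exists_dense {M : ℕ} (hM : 1 ≤ M) : ∃ n b, 1 ≤ n ∧ n ≤ ack (96 * M) 1 ∧
    2 * b * M ≤ 5 * n ∧ ∀ σ : List ℕ, σ.Nodup → σ.length = 5 * n →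
      ∃ w, w <+ (replicate b σ).flatten ∧ R w ∧ M * (5 * n) ≤ w.length := by
  classical
  obtain ⟨n, hn, hb, I, hI, hR, hc, hlen⟩ := exists_long' (12 * M)
  have hs : I.Pairwise (· < ·) := List.pairwise_lt_range.sublist hI
  have hnd : I.Nodup := hs.imp ne_of_lt
  have hU : ∀ p ∈ I, p < 2 * n * n := fun p hp => List.mem_range.1 (hI.subset hp)
  have hn6 : 6 * M ≤ n := by
    have := hI.length_le
    rw [length_range] at this
    nlinarith
  have hne : I.map (· % n) ≠ [] := by
    intro h
    rw [map_eq_nil_iff.1 h] at hlen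
    simp only [length_nil] at hlen
    nlinarith
  set x : ℕ → ℕ := (· % n) with hx
  let L : ℕ → ℕ := fun p => p / n / M
  set P := I.toFinset with hP
  have hF : Free x P := free_of_list hs fun a b hab => realized_free (hR.realized hne le_rfl) hab
  have hL : ∀ p q, p ≤ q → L p ≤ L q := fun p q h =>
    Nat.div_le_div_right (Nat.div_le_div_right h)
  have hlt : ∀ p q, L p < L q → p < q := fun p q h =>
    lt_of_not_ge fun k => absurd (hL q p k) (by omega)
  have hxn : ∀ p, x p < n := fun p => Nat.mod_lt _ hn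
  have hβ : ∀ p ∈ P, p / n ≤ 2 * n := fun p hp =>
    Nat.div_le_of_le_mul (by have := hU p (mem_toFinset.1 hp); nlinarith)
  have him : (P.image x).card ≤ n := image_mod_le hn P
  let y : ℕ → ℕ := fun p => if Kp x L P p then x p else n + p
  have hR1 : R ([n + 2 * n * n] ++ (I.filter (Fst x L P ·)).map y ++ [n + 2 * n * n + 1]) := by
    refine cover_all (Fs := Fst x L P) (K := Kp x L P) hnd (fun p _ => hxn p) (by simp) (by simp)
      (fun p hp => ?_) (fun q r e t ht _ _ => ?_) (fun d p q r e hp => ?_) I [] rfl ?_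
      (Or.inl rfl)
    · have := hU p hp
      simp only [mem_singleton]
      omega
    · rw [e] at hs
      rw [hP, e, mem_toFinset, mem_cons] at ht
      exact ht.elim (fun k => k.ge) fun k => ((pairwise_cons.1 hs).1 t k).le
    · intro t ht e1 e2
      by_contra hq
      obtain ⟨-, ⟨b1, hb1, e3, l3⟩, b2, hb2, e4, l4⟩ := hp
      have hp' : p ∈ P := by simp [hP, e]
      have hq' : q ∈ P := by simp [hP, e]
      have hne' : x p ≠ x q := by
        rw [e, map_append, map_cons, map_cons] at hc
        exact (List.isChain_append_cons_cons.1 hc).2.1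
      rw [e, pairwise_append, pairwise_cons, pairwise_cons] at hs
      have hpq : p < q := hs.2.1.1 q (by simp)
      have htp : t < p := by
        rw [hP, e, mem_toFinset, mem_append, mem_cons, mem_cons] at ht
        rcases ht with k | rfl | rfl | k
        · exact hs.2.2 t k p (by simp)
        · exact absurd e1 hne'
        · omega
        · have := hs.2.1.2.1 t k
          omega
      have l1 := hL t p htp.le
      have l2 := hL p q hpq.le
      have := hF b1 hb1 t ht p hp' q hq' b2 hb2 (hlt _ _ (by omega)) htp hpq (hlt _ _ (by omega))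
        e3 e4.symm e1
      omega
    · simp only [filter_nil, map_nil, append_nil]
      refine ((R_replicate 1 _).append hR fun a ha k => ?_).append (R_replicate 1 _)
        fun a ha k => ?_
      · obtain ⟨t, -, rfl⟩ := mem_map.1 k
        have := hxn t
        have := eq_of_mem_replicate ha
        omega
      · have := mem_singleton.1 k
        rcases mem_append.1 ha with ha | ha
        · have := eq_of_mem_replicate ha
          omega
        · obtain ⟨t, -, rfl⟩ := mem_map.1 ha
          have := hxn t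
          omega
  set T := (I.filter (Fst x L P ·)).map y with hT
  have hcnt : M * (5 * n) ≤ T.length := by
    have k := card_fst (β := (· / n)) hM hF (blk_div P) hβ
    have k1 : (P.filter fun p => Fst x L P p).card = T.length := by
      rw [hT, length_map, ← List.toFinset_card_of_nodup (hnd.filter _), toFinset_filter]
      simp [hP]
    have k2 := Nat.mul_le_mul_left (M + 2) him
    rw [List.toFinset_card_of_nodup hnd] at k
    have k3 : I.length ≤ T.length + (M + 2) * (P.image x).card + 2 * (2 * n) := by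
      rw [← k1]
      convert k
    nlinarith
  set W := ([n + 2 * n * n] ++ T ++ [n + 2 * n * n + 1]).toFinset with hW
  have hWc : W.card ≤ 5 * n := by
    have k : W ⊆ {n + 2 * n * n, n + 2 * n * n + 1} ∪ P.image x ∪
        (P.filter fun p => Fst x L P p ∧ ¬ Kp x L P p).image (n + ·) := by
      intro c hc
      simp only [hW, hT, mem_toFinset, mem_append, mem_singleton, mem_map, mem_filter,
        decide_eq_true_eq] at hc
      simp only [Finset.mem_union, Finset.mem_insert, Finset.mem_singleton, Finset.mem_image,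
        Finset.mem_filter]
      rcases hc with (hc | ⟨p, hp, rfl⟩) | hc
      · tauto
      · by_cases hk : Kp x L P p
        · exact Or.inl (Or.inr ⟨p, mem_toFinset.2 hp.1, by simp [y, hk]⟩)
        · exact Or.inr ⟨p, ⟨mem_toFinset.2 hp.1, hp.2, hk⟩, by simp [y, hk]⟩
      · tauto
    have k1 := (Finset.card_le_card k).trans ((Finset.card_union_le _ _).trans
      (add_le_add (Finset.card_union_le _ _) Finset.card_image_le))
    have k2 := card_starts (x := x) (L := L) (P := P)
    have k3 := Finset.card_le_two (a := n + 2 * n * n) (b := n + 2 * n * n + 1)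
    have k4 : (P.filter fun p => Fst x L P p ∧ ¬ Kp x L P p).card ≤ 2 * (P.image x).card := by
      convert k2
    omega
  obtain ⟨κ, κ1, κ2⟩ := exists_key (L := L) hF (fun p _ q _ => hL p q) fun p _ => hxn p
  obtain ⟨rk, r1, r2⟩ := exists_rk W κ
  have hWm : ∀ c ∈ W, n ≤ c ∨ ∃ p ∈ P, x p = c := by
    intro c hc
    simp only [hW, hT, mem_toFinset, mem_append, mem_singleton, mem_map, mem_filter] at hc
    rcases hc with (hc | ⟨p, hp, rfl⟩) | hc
    · omega
    · by_cases hk : Kp x L P p
      · exact Or.inr ⟨p, mem_toFinset.2 hp.1, by simp [y, hk]⟩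
      · exact Or.inl (by simp [y, hk])
    · omega
  have hyW : ∀ p ∈ I.filter (Fst x L P ·), y p ∈ W := fun p hp =>
    mem_toFinset.2 (mem_append_left _ (mem_append_right _ (mem_map_of_mem hp)))
  refine ⟨n, 2 * n / M + 1 + 1 + 1, hn, by rwa [show 96 * M = 8 * (12 * M) by ring], ?_,
    fun σ hσ hl => ⟨_, ?_, R_map hR1 (ψ := fun c => σ.getD (rk c) 0) ?_, ?_⟩⟩
  · have := Nat.div_mul_le_self (2 * n) M
    nlinarith
  · have hmem : ∀ c ∈ W, [σ.getD (rk c) 0] <+ σ := fun c hc => by
      have := r1 c hc
      rw [List.getD_eq_getElem _ _ (by omega)]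
      exact singleton_sublist.2 (getElem_mem _)
    rw [replicate_succ', replicate_succ, flatten_append, flatten_cons, map_append, map_append]
    refine ((hmem _ (by simp [hW])).append ?_).append (by simpa using hmem _ (by simp [hW]))
    have hrk : ∀ p ∈ I.filter (Fst x L P ·), rk (y p) < σ.length := fun p hp => by
      have := r1 _ (hyW p hp)
      omega
    have e : T.map (fun c => σ.getD (rk c) 0) = ((I.filter (Fst x L P ·)).map
        fun p => L p * σ.length + rk (y p)).map fun i => σ.getD (i % σ.length) 0 := by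
      rw [hT, List.map_map, List.map_map]
      refine List.map_congr_left fun p hp => ?_
      simp only [Function.comp]
      rw [Nat.mul_add_mod_self_right, Nat.mod_eq_of_lt (hrk p hp)]
    rw [e, flat_eq]
    refine Sublist.map _ ?_
    have hso : ((I.filter (Fst x L P ·)).map
        fun p => L p * σ.length + rk (y p)).Pairwise (· < ·) := by
      rw [pairwise_map]
      refine (hs.filter _).imp_of_mem fun {p q} hp hq hpq => ?_
      rcases (hL p q hpq.le).lt_or_eq with k | k
      · have := hrk p hp
        have := Nat.mul_le_mul_right σ.length (Nat.succ_le_of_lt k)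
        rw [Nat.succ_mul] at this
        omega
      · have := r2 _ (hyW p hp) _ (κ2 p (mem_toFinset.2 (mem_filter.1 hp).1) q
          (mem_toFinset.2 (mem_filter.1 hq).1) hpq k)
        rw [k]
        exact Nat.add_lt_add_left this _
    refine sublist_of_subperm_of_pairwise (r := (· ≤ ·))
      (subperm_of_subset (hso.imp ne_of_lt) fun z hz => ?_) (hso.imp le_of_lt)
      (List.pairwise_lt_range.imp le_of_lt)
    obtain ⟨p, hp, rfl⟩ := mem_map.1 hz
    have k1 := hrk p hp
    have k2 : L p ≤ 2 * n / M :=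
      Nat.div_le_div_right (hβ p (mem_toFinset.2 (mem_filter.1 hp).1))
    have k3 := Nat.mul_le_mul_right σ.length k2
    rw [List.mem_range, add_mul, one_mul]
    omega
  · intro c hc c' hc' h
    have hc1 : c ∈ W := mem_toFinset.2 hc
    have hc2 : c' ∈ W := mem_toFinset.2 hc'
    have l1 : rk c < σ.length := by have := r1 c hc1; omega
    have l2 : rk c' < σ.length := by have := r1 c' hc2; omega
    simp only [List.getD_eq_getElem _ _ l1, List.getD_eq_getElem _ _ l2] at h
    have h' := (List.Nodup.getElem_inj_iff hσ).1 h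
    refine κ1 (hWm c hc1) (hWm c' hc2) ?_
    rcases lt_trichotomy (κ c) (κ c') with k | k | k
    · exact absurd (r2 c hc1 c' k) (by omega)
    · exact k
    · exact absurd (r2 c' hc2 c k) (by omega)
  · simp only [length_map, length_append]
    omega

end Pool.Agent.P.MP_10147b_co.Sharp
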