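import Pool.Agent.P.MP_10147b_co.Embed

namespace Pool.Agent.P.MP_10147b_co.Sharp

open Filter Polynomial

/-- good configurations with many protected pairs and a bounded number of sites -/
def PQ (i a m : ℕ) : Prop := ∀ K : ℝ, 1 ≤ K → ∃ (S J : Type) (_ : Fintype S) (_ : Fintype J)
  (c : Cfg S J m), Good K c ∧ a ≤ Fintype.card S ∧ i * Fintype.card S * m ≤ 2 * Fintype.card J ∧
    Fintype.card S ≤ ack (4 * i) m

theorem PQ_zero (m : ℕ) : PQ 0 1 m := by
  intro K hK
  obtain ⟨c, g⟩ := base_one m hK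
  exact ⟨Unit, Empty, inferInstance, inferInstance, c, g, by simp, by simp, by simp⟩

theorem PQ_succ (i : ℕ) (ih : ∀ m, PQ i 1 m) (m : ℕ) : PQ (i + 1) 2 m := by
  induction m with
  | zero =>
    intro K hK
    obtain ⟨c, g⟩ := base_two hK
    refine ⟨Bool, Empty, inferInstance, inferInstance, c, g, by simp, by simp, ?_⟩
    have := lt_ack_left (4 * (i + 1)) 0
    simp only [Fintype.card_bool]
    omega
  | succ m ihm =>
    intro K hK
    have hK4 : 1 ≤ 8 * K ^ 4 := by
      have : 1 ≤ K ^ 4 := one_le_pow₀ hK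
      linarith
    obtain ⟨S0, JB, _, _, B0, gB0, h2, hc, hb⟩ := ihm (8 * K ^ 4) hK4
    obtain ⟨n, hn⟩ : ∃ n, Fintype.card S0 = n + 1 := ⟨Fintype.card S0 - 1, by omega⟩
    obtain ⟨B, gB, hmono⟩ := exists_sorted hK4 gB0 hn
    obtain ⟨C, hKC, h1, h3, h4, h5, h6⟩ := exists_C hK gB
    have hcst : Cst K C (100 * C ^ 4) (1 / (2 * K)) := ⟨hK, hKC, le_rfl, by field_simp⟩
    obtain ⟨S, JT, _, _, T, gT, hS, hT, hb'⟩ := ih (n + 1) ((100 * C ^ 4) ^ 2)
      (by have := hcst.Φ1; have := hcst.Φ2; linarith)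
    let d : StepD S JB JT n m := ⟨B, T, K, C, 100 * C ^ 4, 1 / (2 * K)⟩
    have o : d.OK := ⟨hcst, gB, gT, hmono, h1, h3, h4, h5, h6⟩
    refine ⟨_, _, inferInstance, inferInstance, d.N, o.good, ?_, ?_, ?_⟩
    · simp only [Fintype.card_prod, Fintype.card_fin]
      nlinarith
    · simp only [Fintype.card_prod, Fintype.card_fin, Fintype.card_sum]
      rw [hn] at hc h2
      have k1 := Nat.mul_le_mul_left (Fintype.card S) hc
      have k2 : Fintype.card S * (n + 1) ≤ Fintype.card S * (2 * n) :=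
        Nat.mul_le_mul_left _ (by omega)
      nlinarith
    · simp only [Fintype.card_prod, Fintype.card_fin]
      rw [hn] at hb
      rw [show 4 * (i + 1) = 4 * i + 3 + 1 by ring] at hb ⊢
      rw [ack_succ_succ]
      generalize ack (4 * i + 3 + 1) m = y at hb ⊢
      have k1 := hb'.trans (ack_mono_right (4 * i) hb)
      have k2 := lt_ack_right (4 * i) y
      have k3 := ack_add_one_sq_lt_ack_add_three (4 * i) y
      have k4 := Nat.mul_le_mul k1 (hb.trans k2.le)
      nlinarith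

theorem PQ_all (i m : ℕ) : PQ i 1 m := by
  induction i generalizing m with
  | zero => exact PQ_zero m
  | succ i ih =>
    intro K hK
    obtain ⟨S, J, _, _, c, g, h1, h2⟩ := PQ_succ i ih m K hK
    exact ⟨S, J, _, _, c, g, by omega, h2⟩

theorem exists_cubics' (M : ℕ) : ∃ (F : Finset ℝ[X]) (J : Type) (_ : Fintype J)
    (p : J → Bool → ℝ) (o : J → Bool → ℝ[X]), F.card ≤ ack (8 * M) 1 ∧ F.Nonempty ∧
    (∀ f ∈ F, f.natDegree ≤ 3) ∧
    M * F.card ≤ Fintype.card J ∧ (∀ j, p j false < p j true) ∧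
    (∀ j j', j ≠ j' → p j true ≤ p j' false ∨ p j' true ≤ p j false) ∧
    (∀ j, o j false ≠ o j true) ∧ (∀ j b, o j b ∈ F) ∧
    ∀ j b, ∀ f ∈ F, f ≠ o j b → (o j b).eval (p j b) < f.eval (p j b) := by
  classical
  obtain ⟨S, J, _, _, c, g, h1, h2, h3⟩ := PQ_all (2 * M) 1 1 le_rfl
  let P : S × Fin 1 → ℝ[X] := fun s => C (c.v s.1) + C (c.sl s.1) * (X - C (c.X s.1))
    + C (c.A s.1 s.2) * (X - C (c.X s.1)) ^ 2 + C (c.D s.1 s.2) * (X - C (c.X s.1)) ^ 3
  have hP : ∀ s z, (P s).eval z = c.f s.1 s.2 z := by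
    intro s z
    simp [P, Cfg.f, Cfg.line]
  have hlt : ∀ j b s, s ≠ c.own j b → (P (c.own j b)).eval (c.p j b) < (P s).eval (c.p j b) := by
    intro j b s hs
    rw [hP, hP]
    have k1 := g.W2 s.1 s.2 j b hs
    have k2 := (g.W1 s.1 j b).1
    have k3 := g.wpos le_rfl s.1
    have k4 := g.θpos s.1
    have k5 : 0 < c.θ s.1 * |c.p j b - c.X s.1| := mul_pos k4 (by linarith)
    have k6 : 0 ≤ c.θ (c.own j b).1 * |c.p j b - c.X (c.own j b).1| :=
      mul_nonneg (g.θpos _).le (abs_nonneg _)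
    unfold Cfg.Val ValR Cfg.lv Cfg.top at k1
    unfold Cfg.f at *
    linarith
  have k : (Finset.univ.image P).card ≤ Fintype.card S := by
    refine Finset.card_image_le.trans ?_
    simp
  refine ⟨Finset.univ.image P, J, inferInstance, c.p, fun j b => P (c.own j b), ?_, ?_, ?_, ?_,
    g.plt, g.pdisj, fun j h => ?_, fun j b => Finset.mem_image_of_mem _ (Finset.mem_univ _), ?_⟩
  · rw [show 8 * M = 4 * (2 * M) by ring]
    exact k.trans h3
  · have : Nonempty S := Fintype.card_pos_iff.1 h1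
    exact Finset.univ_nonempty.image _
  · intro f hf
    obtain ⟨s, -, rfl⟩ := Finset.mem_image.1 hf
    simp only [P]
    compute_degree
  · have := Nat.mul_le_mul_left M k
    nlinarith
  · have := hlt j false _ (g.odiff j).symm
    simp only at h
    rw [h] at this
    exact lt_irrefl _ this
  · intro j b f hf hne
    obtain ⟨s, -, rfl⟩ := Finset.mem_image.1 hf
    exact hlt j b s fun k => hne (by rw [k])

open List

theorem flat_eq (σ : List ℕ) (k : ℕ) : (replicate k σ).flatten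
    = (List.range (k * σ.length)).map fun i => σ.getD (i % σ.length) 0 := by
  induction k with
  | zero => simp
  | succ k ih =>
    rw [replicate_succ', flatten_append, ih, add_mul, one_mul, List.range_add, map_append,
      List.map_map]
    congr 1
    apply List.ext_getElem (by simp)
    intro i i1 i2
    have i3 : i < σ.length := by simpa using i2
    simp [Nat.mod_eq_of_lt i3, List.getElem?_eq_getElem i3]

theorem exists_long' (M : ℕ) : ∃ n, 1 ≤ n ∧ n ≤ ack (8 * M) 1 ∧ ∃ I : List ℕ,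
    I <+ List.range (2 * n * n) ∧ R (I.map (· % n)) ∧ (I.map (· % n)).IsChain (· ≠ ·) ∧
      M * n ≤ I.length := by
  classical
  obtain ⟨F, J, _, p, o, hb, hF, hdeg, hcard, h1, h2, h3, h4, h5⟩ := exists_cubics' M
  obtain ⟨lo, hlo⟩ := (Set.finite_range fun j => p j false).bddBelow
  obtain ⟨hi, hhi⟩ := (Set.finite_range fun j => p j true).bddAbove
  obtain ⟨a, b, ha, hb, e0, k1, k2, k3, -⟩ := exists_lit' hF lo hi
  have hlen := Seg.card_le p o h1 h2 h3 h4 h5 k1.destutter Finset.univ fun j _ =>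
    ⟨ha.trans (hlo ⟨j, rfl⟩), (hhi ⟨j, rfl⟩).trans hb⟩
  have henv : Env F (e0.destutter (· ≠ ·)) := Env.destutter ⟨a, b, k1, k2, k3⟩
  have hch := List.isChain_destutter (· ≠ ·) e0
  have hseg := k1.destutter
  generalize e0.destutter (· ≠ ·) = e at *
  have hdeg' : ∀ g ∈ e, g.natDegree ≤ 3 := fun g hg => hdeg g (hseg.mem g hg)
  obtain ⟨ρ, r1, r2, r3⟩ := exists_rank e hch (fun f g h => hseg.no_ababa hdeg' h) F.card
    (Finset.card_le_card fun g hg => hseg.mem g (mem_toFinset.1 hg))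
  have hn : 0 < F.card := hF.card_pos
  rw [flat_eq, length_range, List.map_congr_left (g := (· % F.card)) fun i _ => by
    simp [Nat.mod_lt i hn]] at r3
  obtain ⟨I, hI, hI'⟩ := List.sublist_map_iff.1 r3
  let φ := Function.invFunOn ρ {x | x ∈ e}
  have hφ : ∀ g ∈ e, φ (ρ g) = g := fun g hg => r1.leftInvOn_invFunOn hg
  have hmap : (e.map ρ).map φ = e := by
    rw [List.map_map]
    conv_rhs => rw [← List.map_id e]
    exact List.map_congr_left hφ
  refine ⟨F.card, hn, by assumption, I, hI, ?_, ?_, ?_⟩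
  · rw [← hI']
    refine ⟨φ, ?_, ?_, ?_⟩
    · intro x hx y hy h
      obtain ⟨f, hf, rfl⟩ := List.mem_map.1 hx
      obtain ⟨g, hg, rfl⟩ := List.mem_map.1 hy
      rw [hφ f hf, hφ g hg] at h
      rw [h]
    · intro x hx
      obtain ⟨f, hf, rfl⟩ := List.mem_map.1 hx
      rw [hφ f hf]
      exact hdeg' f hf
    · rw [hmap]
      exact henv.self
  · rw [← hI']
    rw [← hmap] at hch
    exact List.isChain_of_isChain_map φ (fun _ _ h k => h (congrArg φ k)) hch
  · have := congrArg List.length hI'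
    rw [List.length_map, List.length_map] at this
    rw [← this]
    exact hcard.trans (by simpa using hlen)

end Pool.Agent.P.MP_10147b_co.Sharp
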