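import Pool.Agent.P.MP_10147b_co.Comb
import Pool.Agent.P.MP_10147b_co.Sharp.Dense

namespace Pool.Agent.P.MP_10147b_co.Sharp

open List

theorem pow_le_ack {n g y : ℕ} (hn : n ≤ y) (hg : g ≤ y) : g * 2 ^ (n + n) ≤ ack 5 y := by
  have h1 : ack 3 (ack 3 y) < ack 5 y := ack_ack_lt_ack_max_add_two 3 3 y
  have h2 : y < 2 ^ y := Nat.lt_two_pow_self
  have h3 : y + (n + n) ≤ ack 3 y := by
    rw [ack_three, pow_add]
    omega
  have h4 : 2 ^ (y + (n + n)) ≤ 2 ^ ack 3 y := Nat.pow_le_pow_right (by norm_num) h3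
  have h5 : g * 2 ^ (n + n) ≤ 2 ^ (y + (n + n)) := by
    rw [pow_add 2 y]
    exact Nat.mul_le_mul_right _ (by omega)
  have h6 : 0 < 2 ^ ack 3 y := by positivity
  rw [ack_three (ack 3 y), pow_add] at h1
  omega

theorem iter' {M : ℕ} (hM : 1 ≤ M) (g s h : ℕ) : ∃ n, n ≤ ack 6 (h + g + s) ∧
    ∀ (v : List ℕ) (Y : Finset ℕ),
    n ≤ Y.card → (∀ y ∈ Y, h * M ≤ v.count y) → Win M g v Y ∨
      ∃ Z, Z ⊆ Y ∧ Z.card = s ∧ ∃ i j, i + j = h ∧
        (replicate i (Z.sort (· ≤ ·))).flatten <+ v ∧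
        (replicate j (Z.sort (· ≥ ·))).flatten <+ v := by
  induction h with
  | zero =>
    refine ⟨s, by have := lt_ack_right 6 (0 + g + s); omega, fun v Y hY _ => Or.inr ?_⟩
    obtain ⟨Z, h1, h2⟩ := Finset.exists_subset_card_eq hY
    exact ⟨Z, h1, h2, 0, 0, rfl, by simp, by simp⟩
  | succ h ih =>
    obtain ⟨n, hb, ih⟩ := ih
    refine ⟨g * 2 ^ (n + n), ?_, fun v Y hY hc => ?_⟩
    · rw [show h + 1 + g + s = h + g + s + 1 by ring, ack_succ_succ]
      exact pow_le_ack hb (le_trans (by omega) (lt_ack_right 6 (h + g + s)).le)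
    rcases split (c := h * M) hM Nat.one_le_two_pow g v Y hY
      (fun y hy => by have := hc y hy; nlinarith) with k | ⟨v1, v2, Y', rfl, k1, k2, k3⟩
    · exact Or.inl k
    have hl : 2 ^ (n + n) ≤ ((v1.filter (· ∈ Y')).dedup).length := by
      rw [← List.card_toFinset]
      refine k2.trans (Finset.card_le_card fun y hy => ?_)
      simp [hy, (k3 y hy).1]
    have hsub : (v1.filter (· ∈ Y')).dedup <+ v1 := (dedup_sublist _).trans filter_sublist
    have key : ∀ l', l' <+ (v1.filter (· ∈ Y')).dedup → l'.length = n →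
        Win M g (v1 ++ v2) Y ∨ ∃ Z, Z ⊆ Y ∧ (∀ x ∈ Z, x ∈ l') ∧ Z.card = s ∧ ∃ i j, i + j = h ∧
        (replicate i (Z.sort (· ≤ ·))).flatten <+ v2 ∧
        (replicate j (Z.sort (· ≥ ·))).flatten <+ v2 := by
      intro l' h1 h2
      have h3 : l'.toFinset ⊆ Y' := fun x hx => by
        have := h1.subset (mem_toFinset.1 hx)
        simp only [mem_dedup, mem_filter, decide_eq_true_eq] at this
        exact this.2
      rcases ih v2 l'.toFinset
        (by rw [List.toFinset_card_of_nodup ((nodup_dedup _).sublist h1), h2])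
        (fun y hy => (k3 y (h3 hy)).2) with k | ⟨Z, z1, z2, z3⟩
      · exact Or.inl (k.mono (sublist_append_right _ _) (h3.trans k1))
      · exact Or.inr ⟨Z, (z1.trans h3).trans k1, fun x hx => mem_toFinset.1 (z1 hx), z2, z3⟩
    rcases es (n + n) n n rfl _ (nodup_dedup _) hl with ⟨l', l1, l2, l3⟩ | ⟨l', l1, l2, l3⟩
    · rcases key l' l1 l3 with k | ⟨Z, z1, z2, z3, i, j, z4, z5, z6⟩
      · exact Or.inl k
      · refine Or.inr ⟨Z, z1, z3, i + 1, j, by omega, ?_, z6.trans (sublist_append_right _ _)⟩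
        rw [replicate_succ, flatten_cons]
        refine Sublist.append (Sublist.trans ?_ (l1.trans hsub)) z5
        exact sublist_of_subperm_of_pairwise (r := (· ≤ ·))
          (subperm_of_subset (Finset.sort_nodup _ _) fun x hx => z2 x ((Finset.mem_sort _).1 hx))
          (Finset.pairwise_sort _ _) (l2.imp le_of_lt)
    · rcases key l' l1 l3 with k | ⟨Z, z1, z2, z3, i, j, z4, z5, z6⟩
      · exact Or.inl k
      · refine Or.inr ⟨Z, z1, z3, i, j + 1, by omega, z5.trans (sublist_append_right _ _), ?_⟩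
        rw [replicate_succ, flatten_cons]
        refine Sublist.append (Sublist.trans ?_ (l1.trans hsub)) z6
        exact sublist_of_subperm_of_pairwise (r := (· ≥ ·))
          (subperm_of_subset (Finset.sort_nodup _ _) fun x hx => z2 x ((Finset.mem_sort _).1 hx))
          (Finset.pairwise_sort _ _) (l2.imp le_of_lt)

theorem local_lemma' {M : ℕ} (hM : 1 ≤ M) : ∃ g n0, 1 ≤ g ∧ g ≤ 5 * ack (96 * M) 1 ∧
    n0 ≤ ack 6 (3 * g) ∧ ∀ (v : List ℕ) (Y : Finset ℕ),
    n0 ≤ Y.card → (∀ y ∈ Y, g ≤ v.count y) → Win M g v Y := by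
  obtain ⟨n, b, hn, hn', hb, hE⟩ := exists_dense hM
  obtain ⟨n0, b0, h0⟩ := iter' hM (5 * n) (5 * n) (2 * b)
  refine ⟨5 * n, n0, by omega, by omega, b0.trans (ack_mono_right 6 (by nlinarith)),
    fun v Y hY hc => ?_⟩
  rcases h0 v Y hY (fun y hy => hb.trans (hc y hy)) with k | ⟨Z, z1, z2, i, j, z3, z4, z5⟩
  · exact k
  have key : ∀ (σ : List ℕ) (k : ℕ), σ.Nodup → σ.toFinset = Z → b ≤ k →
      (replicate k σ).flatten <+ v → Win M (5 * n) v Y := by
    intro σ k h1 h2 h3 h4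
    obtain ⟨w, w1, w2, w3⟩ := hE σ h1 (by rw [← List.toFinset_card_of_nodup h1, h2, z2])
    have w4 : w.toFinset ⊆ Z := fun x hx => by
      obtain ⟨l, hl, hx'⟩ := mem_flatten.1 (w1.subset (mem_toFinset.1 hx))
      rw [eq_of_mem_replicate hl] at hx'
      rw [← h2]
      exact mem_toFinset.2 hx'
    refine ⟨w, w1.trans (Sublist.trans (Sublist.flatten ?_) h4), w2,
      fun x hx => z1 (w4 (mem_toFinset.2 hx)), z2 ▸ Finset.card_le_card w4, w3⟩
    exact (replicate_sublist_replicate _).2 h3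
  by_cases hi : b ≤ i
  · exact key _ i (Finset.sort_nodup _ _) (Finset.sort_toFinset _ _) hi z4
  · exact key _ j (Finset.sort_nodup _ _) (Finset.sort_toFinset _ _) (by omega) z5

theorem main_comb' {K : ℕ} (hK : 1 ≤ K) : ∃ r0, r0 * r0 ≤ ack (1536 * K ^ 2 + 5) 1 ∧
    ∀ (u : List ℕ) (r : ℕ), r0 ≤ r →
    r * r ≤ u.length → ∃ w, w <+ u ∧ R w ∧ K * r ≤ w.length := by
  obtain ⟨g, n0, hg, b1, b2, hL⟩ := local_lemma' (M := 16 * K ^ 2) (by nlinarith)
  refine ⟨n0 * (16 * K ^ 2) + 4 * K * g, ?_, fun u r hr hu => ?_⟩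
  · rw [show 96 * (16 * K ^ 2) = 1536 * K ^ 2 by ring] at b1
    have hK2 : K ≤ K ^ 2 := by nlinarith
    have a1 := lt_ack_left (1536 * K ^ 2) 1
    have a2 := ack_add_one_sq_lt_ack_add_three (1536 * K ^ 2) 1
    have a3 := ack_ack_lt_ack_max_add_two 12 (1536 * K ^ 2 + 3) 1
    rw [max_eq_right (by omega)] at a3
    generalize ack (1536 * K ^ 2) 1 = A at *
    generalize ack (1536 * K ^ 2 + 3) 1 = A' at *
    have a4 : 15 * A ≤ A' := by nlinarith
    have a5 := b2.trans (ack_mono_right 6 (show 3 * g ≤ A' by omega))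
    have a6 := lt_ack_right 6 A'
    have a7 := ack_add_one_sq_lt_ack_add_three 6 A'
    have a8 := ack_add_one_sq_lt_ack_add_three (6 + 3) A'
    generalize ack 6 A' = B at *
    have a9 : n0 * (16 * K ^ 2) + 4 * K * g ≤ ack (6 + 3) A' := by
      have c1 := Nat.mul_le_mul_right (16 * K ^ 2) a5
      have c2 : 4 * K * g ≤ 4 * K ^ 2 * B := Nat.mul_le_mul (by omega) (by omega)
      have c3 : 20 * K ^ 2 * B ≤ B * B := Nat.mul_le_mul_right _ (by omega)
      nlinarith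
    have a10 := Nat.mul_le_mul a9 a9
    refine le_trans ?_ a3.le
    nlinarith
  by_cases h1 : ∃ x, K * r ≤ u.count x
  · obtain ⟨x, hx⟩ := h1
    exact ⟨replicate (K * r) x, replicate_sublist_iff.2 hx, R_replicate _ _, by simp⟩
  by_cases h2 : K * r ≤ u.toFinset.card
  · exact ⟨u.dedup, dedup_sublist _, R_nodup (nodup_dedup _), by rwa [← List.card_toFinset]⟩
  push Not at h1 h2
  have hL0 : 0 < 4 * K * g := by positivity
  have t1 := Nat.div_mul_le_self r (4 * K * g)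
  have t2 := Nat.lt_div_mul_add (a := r) hL0
  have t3 : 1 ≤ r / (4 * K * g) := (Nat.le_div_iff_mul_le hL0).2 (by omega)
  generalize r / (4 * K * g) = T at *
  obtain ⟨w, a, f, k1, k2, k3, k4, k5, k6⟩ := greedy hg hK (by omega) hL u h2.le T (by
    calc T * (4 * K * g * r) = T * (4 * K * g) * r := by ring
      _ ≤ r * r := Nat.mul_le_mul_right _ t1
      _ ≤ _ := hu)
  refine ⟨w, k1.trans (take_sublist _ _), k2, ?_⟩
  have k7 : ∑ x ∈ w.toFinset, (u.take (T * (4 * K * g * r))).count x ≤ T * g * (K * r) := by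
    refine (Finset.sum_le_card_nsmul _ _ (K * r) fun x _ => ?_).trans ?_
    · exact ((take_sublist _ _).count_le x).trans (h1 x).le
    · exact Nat.mul_le_mul_right _ (k4.trans (Nat.mul_le_mul_right _ (by omega)))
  have hr0 : 0 < r := by omega
  have k8 : 2 * f * (2 * K * g * r) ≤ T * (2 * K * g * r) := by nlinarith
  have k9 : 2 * f ≤ T := Nat.le_of_mul_le_mul_right k8 (by positivity)
  have k10 : r ≤ 2 * T * (4 * K * g) := by nlinarith
  calc K * r ≤ K * (2 * T * (4 * K * g)) := Nat.mul_le_mul_left _ k10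
    _ ≤ K * (2 * (2 * a) * (4 * K * g)) := by gcongr; omega
    _ = a * (16 * K ^ 2 * g) := by ring
    _ ≤ _ := k5

theorem le_sp {K m k : ℕ} (hK : 1 ≤ K) (hk : 3 ≤ k) (hm : ack (1536 * K ^ 2 + 5) 1 ≤ m) :
    K * Nat.sqrt m ≤ sp m k := by
  obtain ⟨r0, hr, h0⟩ := main_comb' hK
  have hne : {n | ∃ u : List ℕ, u.length = m ∧ LSP u k = n}.Nonempty :=
    ⟨_, List.replicate m 0, by simp, rfl⟩
  obtain ⟨u, hu, hsp⟩ := Nat.sInf_mem hne
  obtain ⟨w, w1, w2, w3⟩ := h0 u (Nat.sqrt m) (Nat.le_sqrt.2 (hr.trans hm)) (hu ▸ Nat.sqrt_le m)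
  by_cases hw : w = []
  · subst hw
    exact w3.trans (Nat.zero_le _)
  refine w3.trans ?_
  unfold sp
  rw [← hsp]
  refine le_csSup ⟨u.length, ?_⟩ ⟨w, w1, w2.realized hw hk, rfl⟩
  rintro n ⟨v, hv, -, rfl⟩
  exact hv.length_le

end Pool.Agent.P.MP_10147b_co.Sharp
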